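import Mathlib
import Pool.Agent.H868R3.GPD.One

/-!
# The Grothendieck period conjecture for abelian varieties of CM type with abelian CM field
-/

set_option linter.unusedSectionVars false
set_option linter.unusedVariables false

namespace Pool.Agent.Results.MP_bf54cf_ag.AllDegrees

open NumberField Pool.Agent.H204R3.CM Pool.Agent.H868R3.GPC Pool.Agent.H868R3.GPD

noncomputable section

/-- Let `A` be the product, over `j : J`, of the abelian varieties of type `(L, t j)` over `ℚbar`.
Its rational homology is `J → L` and an element of `H^{2k}(A, ℚ)` is a rational alternating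
`2k`-form `f` on `J → L`. The form `(2πi)^k f` is in the algebraic de Rham cohomology
`H^{2k}_dR(A / ℚbar)`, that is, in `H^{2k}_Gr(A, ℚ(k))`, if it is a linear combination with
algebraic coefficients of the products of the eigenclasses `per (t j, φ) · φ` in
`H^1_dR(A / ℚbar)`. -/
def IsGr {L : Type} [Field L] [NumberField L] (P : Periods L) {J : Type} [Fintype J]
    (t : J → CMType L) (k : ℕ) (f : (J → L) [⋀^Fin k × Fin 2]→ₗ[ℚ] ℚ) : Prop :=
  ∃ b : (Fin k × Fin 2 → (Σ _ : J, (L →+* ℂ))) → ℂ, (∀ I, IsAlgebraic ℚ (b I)) ∧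
    ∀ v : Fin k × Fin 2 → J → L, (2 * Real.pi * Complex.I) ^ k * ((f v : ℚ) : ℂ) =
      ∑ I, b I * ∏ l, (P.per (t (I l).1, (I l).2) * (I l).2 (v l (I l).1))

/-- **The Grothendieck period conjecture for abelian varieties of CM type.** Let `L` be a CM field
which is an abelian extension of the rational numbers. If all elements of `H²_Gr(A × B, ℚ(1))` are
Hodge classes, for all abelian varieties `A` and `B` over `ℚbar` with complex multiplication by
`L`, then `H^{2k}_Gr(A, ℚ(k))` consists of the multiples by `(2πi)^k` of the Hodge classes, for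
all products `A` of abelian varieties with complex multiplication by `L` and all `k`. -/
theorem result (L : Type) [Field L] [NumberField L] [IsCMField L] [IsGalois ℚ L]
    (hab : ∀ σ τ : L ≃ₐ[ℚ] L, σ * τ = τ * σ) (P : Periods L)
    (h1 : ∀ (t : Fin 2 → CMType L) (f : (Fin 2 → L) [⋀^Fin 1 × Fin 2]→ₗ[ℚ] ℚ),
      IsGr P t 1 f → IsHodge (per (typeFam L) t) f)
    (J : Type) [Fintype J] (t : J → CMType L) (k : ℕ)
    (f : (J → L) [⋀^Fin k × Fin 2]→ₗ[ℚ] ℚ) :
    IsGr P t k f ↔ IsHodge (per (typeFam L) t) f := by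
  classical
  have hInd : Indep P := indep_of_one hab P h1
  have hk : ∑ _l : Fin k × Fin 2, (1 : ℤ) = 2 * (k : ℤ) := by
    rw [Finset.sum_const, Finset.card_univ, Fintype.card_prod, Fintype.card_fin, Fintype.card_fin]
    simp
    ring
  have h2 := drb_iff_hodge t hab P hInd (fun _ : Fin k × Fin 2 => (1 : ℤ)) k hk
    f.toMultilinearMap
  have h3 : IsGr P t k f ↔ IsDRB P t (fun _ : Fin k × Fin 2 => (1 : ℤ)) k f.toMultilinearMap := by
    unfold IsGr IsDRB
    simp only [zpow_one, zpow_natCast]
    rfl
  have h4 : IsHodge (per (typeFam L) t) f ↔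
      IsHodgeT t (fun _ : Fin k × Fin 2 => (1 : ℤ)) f.toMultilinearMap := by
    unfold IsHodge IsHodgeT
    simp only [zpow_one]
    rfl
  rw [h3, h2, h4]

end

end Pool.Agent.Results.MP_bf54cf_ag.AllDegrees
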