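import Pool.Agent.H447R3.GpB

open CategoryTheory AlgebraicGeometry

universe u v v₁ v₂

open Pool.Agent.H914 Pool.Agent.H914.VarClass Pool.Agent.H914.VarClass.Obj Pool.Agent.H447

/-- **The period conjecture for algebraic cycles on the square of a variety in one codimension.**
Let `X` be a smooth proper variety of dimension `n ≥ 1` over an algebraically closed field (in the
intended use over `ℚ̄`), let `W₁` and `W₂` be two Weil cohomology theories which are compared in a
common extension of scalars `W` (algebraic de Rham cohomology with coefficients in `ℚ̄`, Betti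
cohomology with rational coefficients, and complex cohomology), and let `D` be a divisor on `X`
whose class satisfies hard Lefschetz. Write `GPC^j(Y)` for the statement that every class in
`H₂^(2j)(Y)` whose image in `H^(2j)(Y)` comes also from `H₁^(2j)(Y)` is a linear combination of
classes of algebraic cycles. Then the following are equivalent: `X` satisfies the Lefschetz
standard conjecture, `GPC^j(X)` holds for all `j` and `GPC^j(X × X)` holds for all `j ≠ n`;
`GPC^(n-1)(X × X)` holds; `GPC^(n+1)(X × X)` holds and `X` satisfies the Lefschetz standard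
conjecture. -/
theorem Pool.Agent.Results.MP_bf54cf_ag.OneCodimension.result {k : Type u} [Field k]
    [IsAlgClosed k] {𝒱 : VarClass k} {ops : CycleOps 𝒱} (W₁ : WeilCohomology.{u, v₁} ops)
    (W₂ : WeilCohomology.{u, v₂} ops) (W : WeilCohomology.{u, v} ops) (e₁ : Extension W₁ W)
    (e₂ : Extension W₂ W) (X : 𝒱.Obj) (hn : 1 ≤ X.dim) (D : X.Cycles) (hD : X.IsCyc 1 D)
    (hHL : HardLefschetz W₂ X D) :
    List.TFAE [
      LefschetzB W₂ X D ∧ (∀ j, PeriodConj e₁ e₂ X j) ∧
        (∀ j, j ≠ X.dim → PeriodConj e₁ e₂ (X.prod X) j),
      PeriodConj e₁ e₂ (X.prod X) (X.dim - 1),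
      LefschetzB W₂ X D ∧ PeriodConj e₁ e₂ (X.prod X) (X.dim + 1)] :=
  period_tfae hn hD hHL
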